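import Pool.Agent.H211.HY.Stm2

set_option autoImplicit false

/-! # An integrable holomorphic function on a finitely punctured plane is rational -/

namespace Pool.Agent.H548.HY211

open Complex Metric Set Filter Topology MeasureTheory Polynomial
open scoped ENNReal

theorem circ_mean {h : ℂ → ℂ} {w : ℂ} {s ρ : ℝ} (hh : DifferentiableOn ℂ h (ball w s))
    (hρ : 0 < ρ) (hρs : ρ < s) :
    ENNReal.ofReal (2 * Real.pi * ‖h w‖) ≤ ∫⁻ θ in Ioo (-Real.pi) Real.pi,
      ENNReal.ofReal (‖h (w + ρ * Complex.exp (θ * Complex.I))‖) := by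
  have hcl : DiffContOnCl ℂ h (ball w |ρ|) := by
    apply DifferentiableOn.diffContOnCl
    rw [closure_ball w (by rw [abs_of_pos hρ]; exact hρ.ne')]
    apply hh.mono
    rw [abs_of_pos hρ]
    exact closedBall_subset_ball hρs
  have h1 := hcl.circleAverage
  rw [Real.circleAverage_def] at h1
  have hcont : Continuous fun θ : ℝ => ‖h (circleMap w ρ θ)‖ := by
    apply Continuous.norm
    apply hh.continuousOn.comp_continuous (continuous_circleMap w ρ)
    intro θ
    rw [mem_ball, dist_eq_norm, circleMap_sub_center, norm_circleMap_zero, abs_of_pos hρ]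
    exact hρs
  have h2 : ‖h w‖ ≤ (2 * Real.pi)⁻¹ * ∫ θ in (0:ℝ)..2 * Real.pi, ‖h (circleMap w ρ θ)‖ := by
    rw [← h1, norm_smul, Real.norm_of_nonneg (by positivity)]
    apply mul_le_mul_of_nonneg_left _ (by positivity)
    exact intervalIntegral.norm_integral_le_integral_norm (by positivity)
  have h3 : 2 * Real.pi * ‖h w‖ ≤ ∫ θ in (0:ℝ)..2 * Real.pi, ‖h (circleMap w ρ θ)‖ := by
    have := mul_le_mul_of_nonneg_left h2 (by positivity : 0 ≤ 2 * Real.pi)
    rw [← mul_assoc, mul_inv_cancel₀ (by positivity), one_mul] at this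
    exact this
  have hper : Function.Periodic (fun θ => ‖h (circleMap w ρ θ)‖) (2 * Real.pi) := by
    intro θ
    simp only [periodic_circleMap w ρ θ]
  have e1 : ∫ θ in (0:ℝ)..2*Real.pi, ‖h (circleMap w ρ θ)‖ =
      ∫ θ in (-Real.pi)..Real.pi, ‖h (circleMap w ρ θ)‖ := by
    have := hper.intervalIntegral_add_eq 0 (-Real.pi)
    rw [zero_add] at this
    rw [this]
    congr 1
    ring
  rw [e1, intervalIntegral.integral_of_le (by linarith [Real.pi_pos]),
    integral_Ioc_eq_integral_Ioo] at h3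
  refine (ENNReal.ofReal_le_ofReal h3).trans ?_
  rw [ofReal_integral_eq_lintegral_ofReal]
  · exact le_of_eq rfl
  · exact (hcont.integrableOn_Icc (a := -Real.pi) (b := Real.pi)).mono_set Ioo_subset_Icc_self
  · exact Filter.Eventually.of_forall (fun _ => by positivity)

theorem polar (G : ℂ → ℝ≥0∞) (hG : Measurable G) (r : ℝ) :
    ∫⁻ z in ball (0 : ℂ) r, G z = ∫⁻ s in Ioo 0 r, ∫⁻ θ in Ioo (-Real.pi) Real.pi,
      ENNReal.ofReal s * G (s * Complex.exp (θ * Complex.I)) := by
  rw [← lintegral_indicator measurableSet_ball, ← Complex.lintegral_comp_polarCoord_symm]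
  have h1 : ∀ p : ℝ × ℝ, Complex.polarCoord.symm p = p.1 * Complex.exp (p.2 * Complex.I) := by
    intro p
    rw [Complex.polarCoord_symm_apply, Complex.exp_mul_I, Complex.ofReal_cos, Complex.ofReal_sin]
  have h2 : ∫⁻ p in polarCoord.target, ENNReal.ofReal p.1 •
      (ball (0 : ℂ) r).indicator G (Complex.polarCoord.symm p) =
      ∫⁻ p in Ioi (0 : ℝ) ×ˢ Ioo (-Real.pi) Real.pi, (Iio r ×ˢ univ).indicator
        (fun p : ℝ × ℝ => ENNReal.ofReal p.1 * G (p.1 * Complex.exp (p.2 * Complex.I))) p := by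
    refine setLIntegral_congr_fun (measurableSet_Ioi.prod measurableSet_Ioo) ?_
    rintro ⟨s, θ⟩ hp
    have hs : 0 < s := hp.1
    show ENNReal.ofReal s • (ball (0 : ℂ) r).indicator G (Complex.polarCoord.symm (s, θ)) = _
    rw [h1 (s, θ)]
    simp only
    have hn : ‖(s : ℂ) * Complex.exp (θ * Complex.I)‖ = s := by
      rw [norm_mul, Complex.norm_exp_ofReal_mul_I, mul_one, Complex.norm_real,
        Real.norm_of_nonneg hs.le]
    by_cases hsr : s < r
    · rw [indicator_of_mem (by rw [mem_ball_zero_iff, hn]; exact hsr),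
        indicator_of_mem (by exact ⟨hsr, mem_univ _⟩), smul_eq_mul]
    · rw [indicator_of_notMem (by rw [mem_ball_zero_iff, hn]; exact hsr),
        indicator_of_notMem (by exact fun h => hsr h.1), smul_zero]
  rw [h2, lintegral_indicator (measurableSet_Iio.prod MeasurableSet.univ),
    Measure.restrict_restrict (measurableSet_Iio.prod MeasurableSet.univ), Set.prod_inter_prod,
    univ_inter, inter_comm, Ioi_inter_Iio, Measure.volume_eq_prod, ← Measure.prod_restrict,
    lintegral_prod]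
  apply Measurable.aemeasurable
  fun_prop

/-- The area mean value inequality. -/
theorem area_mean {h : ℂ → ℂ} {w : ℂ} {s : ℝ} (hs : 0 < s)
    (hh : DifferentiableOn ℂ h (ball w s)) :
    ENNReal.ofReal (Real.pi * s ^ 2 * ‖h w‖) ≤ ∫⁻ z in ball w s, ‖h z‖ₑ := by
  classical
  set G : ℂ → ℝ≥0∞ := (ball (0 : ℂ) s).indicator (fun u => ENNReal.ofReal (‖h (w + u)‖)) with hG
  have hcont : ContinuousOn (fun u => h (w + u)) (ball 0 s) := by
    apply hh.continuousOn.comp (by fun_prop)
    intro u hu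
    rw [mem_ball_zero_iff] at hu
    rw [mem_ball, dist_eq_norm, add_sub_cancel_left]
    exact hu
  have hGm : Measurable G := by
    have h1 : Measurable ((ball (0 : ℂ) s).piecewise (fun u => h (w + u)) 0) :=
      hcont.measurable_piecewise continuousOn_const measurableSet_ball
    have h2 : G = fun u => ENNReal.ofReal
        (‖(ball (0 : ℂ) s).piecewise (fun u => h (w + u)) 0 u‖) := by
      funext u
      by_cases hu : u ∈ ball (0 : ℂ) s
      · rw [hG, indicator_of_mem hu, piecewise_eq_of_mem _ _ _ hu]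
      · rw [hG, indicator_of_notMem hu, piecewise_eq_of_notMem _ _ _ hu]
        simp
    rw [h2]
    exact ENNReal.measurable_ofReal.comp h1.norm
  have e0 : ∫⁻ z in ball w s, ‖h z‖ₑ = ∫⁻ z in ball w s, ENNReal.ofReal ‖h z‖ := by
    apply lintegral_congr
    intro z
    rw [ofReal_norm]
  have e1 : ∫⁻ z in ball w s, ENNReal.ofReal (‖h z‖) = ∫⁻ u in ball (0 : ℂ) s, G u := by
    rw [← lintegral_indicator measurableSet_ball, ← lintegral_indicator measurableSet_ball,
      ← lintegral_add_left_eq_self _ w]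
    apply lintegral_congr
    intro u
    by_cases hu : u ∈ ball (0 : ℂ) s
    · have hu' : w + u ∈ ball w s := by
        rw [mem_ball_zero_iff] at hu
        rw [mem_ball, dist_eq_norm, add_sub_cancel_left]
        exact hu
      rw [indicator_of_mem hu, indicator_of_mem hu', hG, indicator_of_mem hu]
    · have hu' : w + u ∉ ball w s := by
        intro h'
        apply hu
        rw [mem_ball, dist_eq_norm, add_sub_cancel_left] at h'
        rw [mem_ball_zero_iff]
        exact h'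
      rw [indicator_of_notMem hu, indicator_of_notMem hu']
  rw [e0, e1, polar G hGm s]
  have e2 : ENNReal.ofReal (Real.pi * s ^ 2 * ‖h w‖) =
      ∫⁻ ρ in Ioo 0 s, ENNReal.ofReal (ρ * (2 * Real.pi * ‖h w‖)) := by
    rw [← ofReal_integral_eq_lintegral_ofReal]
    · congr 1
      rw [← integral_Ioc_eq_integral_Ioo, ← intervalIntegral.integral_of_le hs.le,
        intervalIntegral.integral_mul_const, integral_id]
      ring
    · exact ((continuous_id.mul continuous_const).integrableOn_Icc (a := 0) (b := s)).mono_set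
        Ioo_subset_Icc_self
    · filter_upwards [ae_restrict_mem measurableSet_Ioo] with ρ hρ
      have := hρ.1
      positivity
  rw [e2]
  apply setLIntegral_mono' measurableSet_Ioo
  intro ρ hρ
  rw [ENNReal.ofReal_mul hρ.1.le]
  rw [lintegral_const_mul' _ _ ENNReal.ofReal_ne_top]
  gcongr
  refine (circ_mean hh hρ.1 hρ.2).trans (le_of_eq ?_)
  apply lintegral_congr
  intro θ
  rw [hG, indicator_of_mem]
  rw [mem_ball_zero_iff, norm_mul, Complex.norm_exp_ofReal_mul_I, mul_one, Complex.norm_real,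
    Real.norm_of_nonneg hρ.1.le]
  exact hρ.2

/-- An entire function which is `o(|z|^m)` at infinity is a polynomial of degree less than `m`. -/
theorem poly_of_growth : ∀ (m : ℕ) (G : ℂ → ℂ), Differentiable ℂ G →
    Tendsto (fun z => G z / z ^ m) (cocompact ℂ) (𝓝 0) →
    ∃ P : ℂ[X], (∀ z, G z = P.eval z) ∧ P.degree < m
  | 0, G, hG, ht => by
    refine ⟨0, ?_, ?_⟩
    · intro z
      have h1 : Tendsto G (cocompact ℂ) (𝓝 0) := by simpa using ht
      have := hG.apply_eq_of_tendsto_cocompact z h1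
      rw [this, eval_zero]
    · rw [degree_zero]
      exact WithBot.bot_lt_coe _
  | m + 1, G, hG, ht => by
    have hd : Differentiable ℂ (dslope G 0) := by
      have h1 : DifferentiableOn ℂ G univ := hG.differentiableOn
      have h2 := (Complex.differentiableOn_dslope (Filter.univ_mem : (univ : Set ℂ) ∈ 𝓝 0)).mpr h1
      exact differentiableOn_univ.mp h2
    have htd : Tendsto (fun z => dslope G 0 z / z ^ m) (cocompact ℂ) (𝓝 0) := by
      have h0 : Tendsto (fun z : ℂ => G 0 / z ^ (m + 1)) (cocompact ℂ) (𝓝 0) := by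
        have h3 : Tendsto (fun z : ℂ => ‖z ^ (m + 1)‖) (cocompact ℂ) atTop := by
          simp only [norm_pow]
          exact (tendsto_pow_atTop (by omega)).comp (tendsto_norm_cocompact_atTop (E := ℂ))
        have h4 : Tendsto (fun z : ℂ => (z ^ (m + 1))⁻¹) (cocompact ℂ) (𝓝 0) :=
          tendsto_inv₀_cobounded.comp (tendsto_norm_atTop_iff_cobounded.mp h3)
        have h5 := h4.const_mul (G 0)
        rw [mul_zero] at h5
        exact h5
      have h1 := ht.sub h0
      rw [sub_zero] at h1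
      refine h1.congr' ?_
      have hne : ∀ᶠ z : ℂ in cocompact ℂ, z ≠ 0 := by
        have := (isCompact_singleton (x := (0 : ℂ))).compl_mem_cocompact
        filter_upwards [this] with z hz
        exact hz
      filter_upwards [hne] with z hz
      rw [dslope_of_ne _ hz, slope_def_field, sub_zero]
      field_simp
      ring
    obtain ⟨P, hP, hdeg⟩ := poly_of_growth m _ hd htd
    refine ⟨C (G 0) + X * P, ?_, ?_⟩
    · intro z
      rw [eval_add, eval_C, eval_mul, eval_X, ← hP z]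
      by_cases hz : z = 0
      · rw [hz]; ring
      · rw [dslope_of_ne _ hz, slope_def_field, sub_zero]
        field_simp
        ring
    · rw [degree_lt_iff_coeff_zero] at hdeg ⊢
      intro k hk
      rw [coeff_add, coeff_C]
      obtain ⟨j, rfl⟩ : ∃ j, k = j + 1 := ⟨k - 1, by omega⟩
      rw [coeff_X_mul, hdeg j (by omega)]
      simp

/-- Removable singularities at finitely many points. -/
theorem removable (E : Finset ℂ) (g : ℂ → ℂ) (hg : DifferentiableOn ℂ g (E : Set ℂ)ᶜ)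
    (hlim : ∀ e ∈ E, Tendsto (fun z => (z - e) * g z) (𝓝[≠] e) (𝓝 0)) :
    ∃ G : ℂ → ℂ, Differentiable ℂ G ∧ ∀ z ∉ E, G z = g z := by
  classical
  refine ⟨fun z => if z ∈ E then limUnder (𝓝[≠] z) g else g z, ?_, ?_⟩
  · intro z
    by_cases hz : z ∈ E
    · -- near `z` the function is `update g z (limUnder (𝓝[≠] z) g)`
      have hcl : IsClosed ((E.erase z : Finset ℂ) : Set ℂ) := Finset.isClosed _
      have hopen : IsOpen (((E.erase z : Finset ℂ) : Set ℂ)ᶜ) := hcl.isOpen_compl
      have hmem : z ∈ ((E.erase z : Finset ℂ) : Set ℂ)ᶜ := by simp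
      have hs : ((E.erase z : Finset ℂ) : Set ℂ)ᶜ ∈ 𝓝 z := hopen.mem_nhds hmem
      have hsub : ((E.erase z : Finset ℂ) : Set ℂ)ᶜ \ {z} ⊆ (E : Set ℂ)ᶜ := by
        rintro u ⟨hu1, hu2⟩ hu3
        exact hu1 (by simpa using ⟨hu3, hu2⟩)
      have ho : (fun u => g u - g z) =o[𝓝[≠] z] fun u => (u - z)⁻¹ := by
        have h1 : (fun u => g u) =o[𝓝[≠] z] fun u => (u - z)⁻¹ := by
          rw [Asymptotics.isLittleO_iff_tendsto']
          · refine (hlim z hz).congr' ?_
            filter_upwards with u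
            rw [div_inv_eq_mul, mul_comm]
          · filter_upwards [self_mem_nhdsWithin] with u hu h0
            exfalso
            rw [inv_eq_zero] at h0
            exact hu (sub_eq_zero.mp h0)
        have h2 : (fun _ : ℂ => g z) =o[𝓝[≠] z] fun u => (u - z)⁻¹ := by
          rw [Asymptotics.isLittleO_iff_tendsto']
          · have h3 : Tendsto (fun u : ℂ => g z * (u - z)) (𝓝[≠] z) (𝓝 (g z * (z - z))) := by
              apply Tendsto.mono_left _ nhdsWithin_le_nhds
              exact (continuous_const.mul (continuous_id.sub continuous_const)).tendsto z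
            rw [sub_self, mul_zero] at h3
            refine h3.congr' ?_
            filter_upwards with u
            rw [div_inv_eq_mul]
          · filter_upwards [self_mem_nhdsWithin] with u hu h0
            exfalso
            rw [inv_eq_zero] at h0
            exact hu (sub_eq_zero.mp h0)
        exact h1.sub h2
      have hd := Complex.differentiableOn_update_limUnder_of_isLittleO hs (hg.mono hsub) ho
      have hda := hd.differentiableAt hs
      refine hda.congr_of_eventuallyEq ?_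
      filter_upwards [hs] with u hu
      by_cases huz : u = z
      · subst huz
        simp [hz]
      · have huE : u ∉ E := by
          intro h
          exact hu (by simpa using ⟨h, huz⟩)
        simp [huE, Function.update_of_ne huz]
    · have hopen : IsOpen ((E : Set ℂ)ᶜ) := (Finset.isClosed _).isOpen_compl
      have hs : (E : Set ℂ)ᶜ ∈ 𝓝 z := hopen.mem_nhds hz
      refine (hg.differentiableAt hs).congr_of_eventuallyEq ?_
      filter_upwards [hs] with u hu
      have : u ∉ E := hu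
      simp [this]
  · intro z hz
    simp [hz]

/-- `(z - e)² h z → 0` at the punctures. -/
theorem puncture (E : Finset ℂ) (h : ℂ → ℂ) (hh : DifferentiableOn ℂ h (E : Set ℂ)ᶜ)
    (hint : ∫⁻ z : ℂ, ‖h z‖ₑ ≠ ⊤) (e : ℂ) :
    Tendsto (fun z => (z - e) ^ 2 * h z) (𝓝[≠] e) (𝓝 0) := by
  classical
  -- a ball around `e` without other punctures
  have hcl : IsClosed ((E.erase e : Finset ℂ) : Set ℂ) := Finset.isClosed _
  have hmem : e ∈ ((E.erase e : Finset ℂ) : Set ℂ)ᶜ := by simp
  obtain ⟨δ, hδ, hball⟩ := Metric.isOpen_iff.mp hcl.isOpen_compl e hmem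
  have hnull : Tendsto (fun z : ℂ => ∫⁻ u in ball e (2 * ‖z - e‖), ‖h u‖ₑ) (𝓝[≠] e) (𝓝 0) := by
    apply tendsto_setLIntegral_zero hint
    have h1 : Tendsto (fun z : ℂ => ENNReal.ofReal (2 * ‖z - e‖) ^ 2 * NNReal.pi) (𝓝[≠] e)
        (𝓝 (ENNReal.ofReal (2 * ‖e - e‖) ^ 2 * NNReal.pi)) := by
      apply Tendsto.mono_left _ nhdsWithin_le_nhds
      apply Continuous.tendsto
      apply ENNReal.continuous_mul_const ENNReal.coe_ne_top |>.comp
      apply (ENNReal.continuous_pow 2).comp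
      exact ENNReal.continuous_ofReal.comp (by fun_prop)
    rw [sub_self, norm_zero, mul_zero, ENNReal.ofReal_zero, zero_pow (by norm_num), zero_mul] at h1
    refine h1.congr ?_
    intro z
    simp only [Function.comp]
    rw [Complex.volume_ball]
  have hnull2 : Tendsto (fun z : ℂ => (4 / Real.pi) *
      (∫⁻ u in ball e (2 * ‖z - e‖), ‖h u‖ₑ).toReal) (𝓝[≠] e) (𝓝 0) := by
    have h1 := (ENNReal.tendsto_toReal ENNReal.zero_ne_top).comp hnull
    have h2 := h1.const_mul (4 / Real.pi)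
    rw [ENNReal.toReal_zero, mul_zero] at h2
    exact h2
  apply squeeze_zero_norm' _ hnull2
  have hnear : ball e (δ / 2) ∈ 𝓝[≠] e := mem_nhdsWithin_of_mem_nhds (ball_mem_nhds e (by positivity))
  filter_upwards [hnear, self_mem_nhdsWithin] with z hz hze
  have hze' : 0 < ‖z - e‖ := norm_pos_iff.mpr (sub_ne_zero.mpr hze)
  rw [mem_ball, dist_eq_norm] at hz
  set ρ := ‖z - e‖ / 2 with hρ
  have hρ0 : 0 < ρ := by positivity
  have hsub : ball z ρ ⊆ (E : Set ℂ)ᶜ := by
    intro u hu huE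
    rw [mem_ball, dist_eq_norm] at hu
    by_cases hue : u = e
    · rw [hue] at hu
      rw [norm_sub_rev] at hu
      linarith
    · have h1 : u ∈ ball e δ := by
        rw [mem_ball, dist_eq_norm]
        calc ‖u - e‖ = ‖(u - z) + (z - e)‖ := by congr 1; ring
          _ ≤ ‖u - z‖ + ‖z - e‖ := norm_add_le _ _
          _ < δ := by linarith
      exact hball h1 (by simpa using ⟨huE, hue⟩)
  have hsub2 : ball z ρ ⊆ ball e (2 * ‖z - e‖) := by
    intro u hu
    rw [mem_ball, dist_eq_norm] at hu ⊢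
    calc ‖u - e‖ = ‖(u - z) + (z - e)‖ := by congr 1; ring
      _ ≤ ‖u - z‖ + ‖z - e‖ := norm_add_le _ _
      _ < 2 * ‖z - e‖ := by linarith
  have h1 := area_mean hρ0 (hh.mono hsub)
  have h2 : ∫⁻ u in ball z ρ, ‖h u‖ₑ ≤ ∫⁻ u in ball e (2 * ‖z - e‖), ‖h u‖ₑ :=
    lintegral_mono_set hsub2
  have hfin : ∫⁻ u in ball e (2 * ‖z - e‖), ‖h u‖ₑ ≠ ⊤ :=
    ((setLIntegral_le_lintegral _ _).trans_lt hint.lt_top).ne
  have h3 : Real.pi * ρ ^ 2 * ‖h z‖ ≤ (∫⁻ u in ball e (2 * ‖z - e‖), ‖h u‖ₑ).toReal := by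
    rw [← ENNReal.ofReal_le_iff_le_toReal hfin]
    exact h1.trans h2
  rw [norm_mul, norm_pow]
  have h4 : ‖z - e‖ = 2 * ρ := by rw [hρ]; ring
  have h5 : ‖z - e‖ ^ 2 * ‖h z‖ = (4 / Real.pi) * (Real.pi * ρ ^ 2 * ‖h z‖) := by
    rw [h4]
    field_simp
    ring
  rw [h5]
  exact mul_le_mul_of_nonneg_left h3 (by positivity)

/-- `|z|² |h z| → 0` at infinity. -/
theorem infinity (E : Finset ℂ) (h : ℂ → ℂ) (hh : DifferentiableOn ℂ h (E : Set ℂ)ᶜ)
    (hint : ∫⁻ z : ℂ, ‖h z‖ₑ ≠ ⊤) :
    Tendsto (fun z => z ^ 2 * h z) (cocompact ℂ) (𝓝 0) := by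
  classical
  obtain ⟨R, hR⟩ := (E.finite_toSet.isBounded).subset_closedBall (0 : ℂ)
  -- tails
  have htail : Tendsto (fun r : ℝ => ∫⁻ u in {u : ℂ | r ≤ ‖u‖}, ‖h u‖ₑ) atTop (𝓝 0) := by
    set μ := (volume : Measure ℂ).withDensity (fun u => ‖h u‖ₑ) with hμ
    have hms : ∀ r : ℝ, MeasurableSet {u : ℂ | r ≤ ‖u‖} := fun r =>
      measurableSet_le measurable_const measurable_norm
    have h1 : Tendsto (μ ∘ fun r : ℝ => {u : ℂ | r ≤ ‖u‖}) atTop
        (𝓝 (μ (⋂ r : ℝ, {u : ℂ | r ≤ ‖u‖}))) := by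
      apply tendsto_measure_iInter_atTop
      · intro r; exact (hms r).nullMeasurableSet
      · intro r s hrs u hu; exact le_trans hrs hu
      · refine ⟨0, ?_⟩
        rw [hμ, withDensity_apply _ (hms 0)]
        exact ((setLIntegral_le_lintegral _ _).trans_lt hint.lt_top).ne
    have h2 : (⋂ r : ℝ, {u : ℂ | r ≤ ‖u‖}) = ∅ := by
      ext u
      simp only [mem_iInter, mem_ofPred_eq, mem_empty_iff_false, iff_false, not_forall, not_le]
      exact ⟨‖u‖ + 1, by linarith⟩
    rw [h2, measure_empty] at h1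
    refine h1.congr ?_
    intro r
    simp only [Function.comp]
    rw [hμ, withDensity_apply _ (hms r)]
  have hnull : Tendsto (fun z : ℂ => ∫⁻ u in {u : ℂ | ‖z‖ / 2 ≤ ‖u‖}, ‖h u‖ₑ) (cocompact ℂ) (𝓝 0) := by
    apply htail.comp
    exact (tendsto_norm_cocompact_atTop (E := ℂ)).atTop_div_const (by norm_num)
  have hnull2 : Tendsto (fun z : ℂ => (4 / Real.pi) *
      (∫⁻ u in {u : ℂ | ‖z‖ / 2 ≤ ‖u‖}, ‖h u‖ₑ).toReal) (cocompact ℂ) (𝓝 0) := by
    have h1 := (ENNReal.tendsto_toReal ENNReal.zero_ne_top).comp hnull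
    have h2 := h1.const_mul (4 / Real.pi)
    rw [ENNReal.toReal_zero, mul_zero] at h2
    exact h2
  apply squeeze_zero_norm' _ hnull2
  have hbig : ∀ᶠ z : ℂ in cocompact ℂ, 2 * (|R| + 1) < ‖z‖ :=
    (tendsto_norm_cocompact_atTop (E := ℂ)).eventually_gt_atTop _
  filter_upwards [hbig] with z hz
  have hR0 : 0 ≤ |R| := abs_nonneg R
  have hz0 : 0 < ‖z‖ := by linarith
  have hsub0 : ball z (‖z‖ / 2) ⊆ {u : ℂ | ‖z‖ / 2 ≤ ‖u‖} := by
    intro u hu
    rw [mem_ball, dist_eq_norm] at hu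
    show ‖z‖ / 2 ≤ ‖u‖
    have : ‖z‖ ≤ ‖u‖ + ‖u - z‖ := by
      calc ‖z‖ = ‖u - (u - z)‖ := by congr 1; ring
        _ ≤ ‖u‖ + ‖u - z‖ := norm_sub_le _ _
    linarith
  have hsub : ball z (‖z‖ / 2) ⊆ (E : Set ℂ)ᶜ := by
    intro u hu huE
    have h1 := hsub0 hu
    have h2 := hR huE
    rw [mem_closedBall_zero_iff] at h2
    have h3 : ‖z‖ / 2 ≤ ‖u‖ := h1
    have h4 := le_abs_self R
    linarith
  have h1 := area_mean (by positivity : 0 < ‖z‖ / 2) (hh.mono hsub)
  have h2 : ∫⁻ u in ball z (‖z‖ / 2), ‖h u‖ₑ ≤ ∫⁻ u in {u : ℂ | ‖z‖ / 2 ≤ ‖u‖}, ‖h u‖ₑ :=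
    lintegral_mono_set hsub0
  have hfin : ∫⁻ u in {u : ℂ | ‖z‖ / 2 ≤ ‖u‖}, ‖h u‖ₑ ≠ ⊤ :=
    ((setLIntegral_le_lintegral _ _).trans_lt hint.lt_top).ne
  have h3 : Real.pi * (‖z‖ / 2) ^ 2 * ‖h z‖ ≤
      (∫⁻ u in {u : ℂ | ‖z‖ / 2 ≤ ‖u‖}, ‖h u‖ₑ).toReal := by
    rw [← ENNReal.ofReal_le_iff_le_toReal hfin]
    exact h1.trans h2
  rw [norm_mul, norm_pow]
  have h5 : ‖z‖ ^ 2 * ‖h z‖ = (4 / Real.pi) * (Real.pi * (‖z‖ / 2) ^ 2 * ‖h z‖) := by
    field_simp
    ring
  rw [h5]
  exact mul_le_mul_of_nonneg_left h3 (by positivity)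

theorem t_MERO : Pool.Agent.H211.HY.S_MERO := by
  classical
  intro E h hh hne hint
  set B₀ : ℂ[X] := ∏ e ∈ E, (X - C e) with hB₀
  have hBeval : ∀ z, B₀.eval z = ∏ e ∈ E, (z - e) := by
    intro z
    rw [hB₀, eval_prod]
    simp
  have hB₀m : B₀.Monic := monic_prod_of_monic _ _ fun e _ => monic_X_sub_C e
  have hB₀d : B₀.natDegree = E.card := by
    rw [hB₀, natDegree_prod_of_monic _ _ fun e _ => monic_X_sub_C e]
    simp
  have hBne : ∀ z ∉ E, B₀.eval z ≠ 0 := by
    intro z hz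
    rw [hBeval, Finset.prod_ne_zero_iff]
    intro e he h0
    rw [sub_eq_zero] at h0
    exact hz (h0 ▸ he)
  have hdB : Differentiable ℂ fun z => B₀.eval z := B₀.differentiable
  obtain ⟨G, hG, hGeq⟩ := removable E (fun z => h z * B₀.eval z) (hh.mul hdB.differentiableOn) (by
    intro e he
    have h1 := puncture E h hh hint e
    have h2 : Tendsto (fun z : ℂ => ∏ f ∈ E.erase e, (z - f)) (𝓝[≠] e)
        (𝓝 (∏ f ∈ E.erase e, (e - f))) := by
      apply Tendsto.mono_left _ nhdsWithin_le_nhds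
      apply Continuous.tendsto (f := fun z : ℂ => ∏ f ∈ E.erase e, (z - f))
      fun_prop
    have h3 := h1.mul h2
    rw [zero_mul] at h3
    refine h3.congr ?_
    intro z
    rw [hBeval, ← Finset.mul_prod_erase E _ he]
    ring)
  set m := E.card - 2 with hm
  have hgrow : Tendsto (fun z => G z / z ^ m) (cocompact ℂ) (𝓝 0) := by
    obtain ⟨R, hR⟩ := (E.finite_toSet.isBounded).subset_closedBall (0 : ℂ)
    have hR0 : 0 ≤ |R| := abs_nonneg R
    have h1 := (infinity E h hh hint).norm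
    have h2 := h1.const_mul (2 ^ E.card)
    rw [norm_zero, mul_zero] at h2
    apply squeeze_zero_norm' _ h2
    have hbig : ∀ᶠ z : ℂ in cocompact ℂ, |R| + 1 < ‖z‖ :=
      (tendsto_norm_cocompact_atTop (E := ℂ)).eventually_gt_atTop _
    filter_upwards [hbig] with z hz
    have hz0 : 0 < ‖z‖ := by linarith
    have hzE : z ∉ E := by
      intro h
      have := hR h
      rw [mem_closedBall_zero_iff] at this
      have h4 := le_abs_self R
      linarith
    rw [hGeq z hzE, norm_div, norm_mul, norm_pow, div_le_iff₀ (by positivity), norm_mul, norm_pow]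
    have h3 : ‖B₀.eval z‖ ≤ (2 * ‖z‖) ^ E.card := by
      rw [hBeval, norm_prod]
      calc ∏ e ∈ E, ‖z - e‖ ≤ ∏ e ∈ E, (2 * ‖z‖) := by
            apply Finset.prod_le_prod
            · intro e _; positivity
            · intro e he
              have h5 := hR he
              rw [mem_closedBall_zero_iff] at h5
              have h4 := le_abs_self R
              calc ‖z - e‖ ≤ ‖z‖ + ‖e‖ := norm_sub_le _ _
                _ ≤ 2 * ‖z‖ := by linarith
        _ = (2 * ‖z‖) ^ E.card := by rw [Finset.prod_const]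
    have h6 : ‖z‖ ^ E.card ≤ ‖z‖ ^ 2 * ‖z‖ ^ m := by
      rw [← pow_add]
      apply pow_le_pow_right₀
      · linarith
      · omega
    calc ‖h z‖ * ‖B₀.eval z‖ ≤ ‖h z‖ * (2 * ‖z‖) ^ E.card :=
          mul_le_mul_of_nonneg_left h3 (norm_nonneg _)
      _ = 2 ^ E.card * (‖h z‖ * ‖z‖ ^ E.card) := by rw [mul_pow]; ring
      _ ≤ 2 ^ E.card * (‖h z‖ * (‖z‖ ^ 2 * ‖z‖ ^ m)) := by gcongr
      _ = 2 ^ E.card * (‖z‖ ^ 2 * ‖h z‖) * ‖z‖ ^ m := by ring
  obtain ⟨A₀, hA₀, hdeg⟩ := poly_of_growth m G hG hgrow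
  obtain ⟨z₀, hz₀, hhz₀⟩ := hne
  have hA₀ne : A₀ ≠ 0 := by
    rintro rfl
    have h1 := hA₀ z₀
    rw [eval_zero, hGeq z₀ hz₀] at h1
    rcases mul_eq_zero.mp h1 with h2 | h2
    · exact hhz₀ h2
    · exact hBne z₀ hz₀ h2
  have hA₀d : A₀.natDegree + 3 ≤ E.card := by
    have h1 : A₀.natDegree < m := (natDegree_lt_iff_degree_lt hA₀ne).mpr hdeg
    omega
  set g := EuclideanDomain.gcd A₀ B₀ with hg
  have hg0 : g ≠ 0 := by
    intro h0
    exact hA₀ne (EuclideanDomain.gcd_eq_zero_iff.mp h0).1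
  obtain ⟨A, hA⟩ : g ∣ A₀ := EuclideanDomain.gcd_dvd_left _ _
  obtain ⟨B, hB⟩ : g ∣ B₀ := EuclideanDomain.gcd_dvd_right _ _
  have hAne : A ≠ 0 := by
    rintro rfl
    rw [mul_zero] at hA
    exact hA₀ne hA
  have hBne0 : B ≠ 0 := by
    rintro rfl
    rw [mul_zero] at hB
    exact hB₀m.ne_zero hB
  refine ⟨A, B, ?_, hAne, ?_, ?_⟩
  · refine ⟨EuclideanDomain.gcdA A₀ B₀, EuclideanDomain.gcdB A₀ B₀, ?_⟩
    have h1 := EuclideanDomain.gcd_eq_gcd_ab A₀ B₀
    apply mul_left_cancel₀ hg0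
    calc g * (EuclideanDomain.gcdA A₀ B₀ * A + EuclideanDomain.gcdB A₀ B₀ * B)
        = (g * A) * EuclideanDomain.gcdA A₀ B₀ + (g * B) * EuclideanDomain.gcdB A₀ B₀ := by ring
      _ = A₀ * EuclideanDomain.gcdA A₀ B₀ + B₀ * EuclideanDomain.gcdB A₀ B₀ := by rw [← hA, ← hB]
      _ = g * 1 := by rw [← h1, mul_one]
  · have h1 : A₀.natDegree = g.natDegree + A.natDegree := by
      rw [hA, natDegree_mul hg0 hAne]
    have h2 : B₀.natDegree = g.natDegree + B.natDegree := by
      rw [hB, natDegree_mul hg0 hBne0]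
    omega
  · intro z hz
    have h1 : B₀.eval z = g.eval z * B.eval z := by rw [← eval_mul, ← hB]
    have h2 : A₀.eval z = g.eval z * A.eval z := by rw [← eval_mul, ← hA]
    have h3 := hBne z hz
    rw [h1] at h3
    have hgz : g.eval z ≠ 0 := left_ne_zero_of_mul h3
    have hBz : B.eval z ≠ 0 := right_ne_zero_of_mul h3
    refine ⟨hBz, ?_⟩
    have h4 : h z * B₀.eval z = A₀.eval z := by rw [← hA₀ z, hGeq z hz]
    rw [h1, h2] at h4
    rw [eq_div_iff hBz]
    apply mul_left_cancel₀ hgz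
    calc g.eval z * (h z * B.eval z) = h z * (g.eval z * B.eval z) := by ring
      _ = g.eval z * A.eval z := h4

end Pool.Agent.H548.HY211
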